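import Pool.Agent.Lib.MP_944cb0_gt.Bridge

/-!
# The coarse Whitehead conjecture for subgroups of hyperbolic groups

Let `G` be a word hyperbolic group with a finite presentation whose Cayley complex is
contractible.  Then every finitely generated subgroup `H` of `G` has coarsely trivial `π_m` for
every `m ≥ 2`; and so does every subset `Y` of `G` with the metric induced by the word metric
of `G`.
-/

set_option autoImplicit false

namespace Pool.Agent.Results.MP_944cb0_gt.CoarseWhitehead

open Pool.Agent.Lib.MP_944cb0_gt.Stmt

universe u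

theorem result {G : Type u} [Group G] {α : Type u} [Finite α] [DecidableEq α]
    (ι : α → G) (rels : Set (FreeGroup α)) (hfin : rels.Finite)
    -- the finite presentation of `G`
    (hpres : Presents ι rels)
    -- the Cayley complex `X` of the presentation has `H_2(X) = 0`; as `X` is a simply connected
    -- 2-complex, this means that `X` is contractible
    (hasph : Function.Injective (boundary₂ ι rels))
    -- `G` is word hyperbolic
    (hhyp : WordHyperbolic (Set.range ι)) :
    -- finitely generated subgroups, with any word metric of a finite generating set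
    (∀ (H : Subgroup G) (T : Set H), T.Finite → Subgroup.closure T = ⊤ →
      ∀ m : ℕ, 2 ≤ m → CoarselyTrivialPi (wdist T) m) ∧
    -- arbitrary subsets with the induced metric
    (∀ (Y : Set G) (m : ℕ), 2 ≤ m →
      CoarselyTrivialPi (fun x y : Y => wdist (Set.range ι) (x : G) (y : G)) m) := by
  rw [Pool.Agent.Lib.MP_944cb0_gt.stmt_boundary₂] at hasph
  obtain ⟨HG, hd, hCE⟩ := Pool.Agent.Lib.MP_944cb0_gt.exists_HS ι rels hfin hpres hasph hhyp
  refine ⟨fun H T hT hgen m hm => ?_, fun Y m hm => ?_⟩
  · obtain ⟨h1, h2⟩ := Pool.Agent.Lib.MP_944cb0_gt.subgroup_compare hpres.1 H T hT hgen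
    apply Pool.Agent.Lib.MP_944cb0_gt.stmt_coarsely
    exact Pool.Agent.Lib.MP_944cb0_gt.main_map HG hCE (Pool.Agent.Lib.MP_944cb0_gt.wdist T)
      (fun x : H => (x : G)) (by rw [hd]; exact h1) (by rw [hd]; exact h2) m hm
  · apply Pool.Agent.Lib.MP_944cb0_gt.stmt_coarsely
    exact Pool.Agent.Lib.MP_944cb0_gt.main_map HG hCE
      (fun x y : Y => Pool.Agent.Lib.MP_944cb0_gt.wdist (Set.range ι) (x : G) (y : G))
      (fun x : Y => (x : G)) (by rw [hd]; exact fun R => ⟨R, fun _ _ h => h⟩)
      (by rw [hd]; exact fun R => ⟨R, fun _ _ h => h⟩) m hm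

end Pool.Agent.Results.MP_944cb0_gt.CoarseWhitehead
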